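import Mathlib

/-!
# Package LV/INJ (for helper48), the algebra
-/

set_option autoImplicit false

open MvPolynomial

namespace Pool.Agent.P8H93.LV

/-- the dimension of an integral extension (as in `Z125/UN/Emb.lean`) -/
lemma dim_le {R S : Type} [CommRing R] [CommRing S] [IsDomain S] [Algebra R S]
    [Algebra.IsIntegral R S] (h : Function.Injective (algebraMap R S)) :
    ringKrullDim R ≤ ringKrullDim S := by
  unfold ringKrullDim Order.krullDim
  refine iSup_le fun l => ?_
  obtain ⟨P, hP1, hP2⟩ := Ideal.exists_ideal_over_prime_of_isIntegral_of_isDomain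
    (R := R) (S := S) l.head.asIdeal (by
      rw [(RingHom.injective_iff_ker_eq_bot _).mp h]
      exact bot_le)
  have : P.LiesOver (RelSeries.head l).asIdeal := ⟨hP2.symm⟩
  obtain ⟨L, hL, -, -⟩ := Ideal.exists_ltSeries_of_hasGoingUp (R := R) (S := S) l P
  refine le_trans ?_ (le_iSup _ L)
  rw [hL]

theorem inj0 (k : Type) [Field k] (L : Type) [CommRing L] [IsDomain L] [Algebra k L] [Algebra.FiniteType k L]
    (N n : ℕ) (φ : MvPolynomial (Fin N) k →ₐ[k] L) (hφ : Function.Injective φ) (hn : ringKrullDim L ≤ n) :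
    N ≤ n := by
  obtain ⟨r, g, ginj, gint⟩ := exists_integral_inj_algHom_of_fg k L
  let _ : Algebra (MvPolynomial (Fin r) k) L := g.toRingHom.toAlgebra
  have : IsScalarTower k (MvPolynomial (Fin r) k) L := .of_algebraMap_eq fun a => (g.commutes a).symm
  have hint : Algebra.IsIntegral (MvPolynomial (Fin r) k) L := ⟨gint⟩
  have hr : r ≤ n := by
    have h1 := (dim_le (R := MvPolynomial (Fin r) k) (S := L) ginj).trans hn
    rw [MvPolynomial.ringKrullDim_of_isNoetherianRing, ringKrullDim_eq_zero_of_field, zero_add,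
      Nat.card_eq_fintype_card, Fintype.card_fin] at h1
    exact_mod_cast h1
  have : FaithfulSMul (MvPolynomial (Fin r) k) L :=
    (faithfulSMul_iff_algebraMap_injective _ _).mpr ginj
  have hb1 : IsTranscendenceBasis k (algebraMap (MvPolynomial (Fin r) k) L ∘ X) :=
    (IsTranscendenceBasis.mvPolynomial (Fin r) k).algebraMap_comp
  have h2 := hb1.cardinalMk_eq_trdeg
  have h3 := trdeg_le_of_injective φ hφ
  rw [MvPolynomial.trdeg_of_isDomain, ← h2, Cardinal.lift_id, Cardinal.mk_fin, Cardinal.mk_fin] at h3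
  have h4 : N ≤ r := by exact_mod_cast h3
  exact h4.trans hr

end Pool.Agent.P8H93.LV
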