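import Pool.Agent.P8H48.LV.Stm
import Pool.Agent.P8H93.LV.Inj0

/-!
# Package LV/INJ (for helper48)
-/

set_option autoImplicit false

namespace Pool.Agent.P8H93.LV

open Pool.Agent.P8H48.LV

theorem inj : S_INJ := by
  intro k _ L _ _ _ _ N n φ hφ hn
  exact inj0 k L N n φ hφ hn

end Pool.Agent.P8H93.LV
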